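import Pool.Agent.BSE.Stmts5

open MeasureTheory Matrix Finset
open scoped ComplexConjugate

namespace Pool.Agent.BSE.H1

open Pool.Agent.BSE
open Pool.Agent.Helper64_FR

variable {n : ℕ}

theorem m6_pos (i j k : Fin n) : 0 < m6 i j k := by
  unfold m6
  split_ifs <;> norm_num

theorem m6_right (i j k : Fin n) : m6 i j k = m6 i k j := by
  unfold m6
  by_cases h1 : i = j <;> by_cases h2 : j = k <;> by_cases h3 : i = k <;>
    simp_all [eq_comm]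

theorem m6_cyc (i j k : Fin n) : m6 i j k = m6 j k i := by
  unfold m6
  by_cases h1 : i = j <;> by_cases h2 : j = k <;> by_cases h3 : i = k <;>
    simp_all [eq_comm]

theorem m6_23 {i j k : Fin n} (h1 : i ≠ j) (h2 : i ≠ k) : m6 i j k = m2 j k := by
  unfold m6 m2
  by_cases h3 : j = k
  · simp [h1, h2, h3]; norm_num
  · simp [h1, h2, h3]

theorem m6_13 {i j k : Fin n} (h1 : i ≠ j) (h2 : j ≠ k) : m6 i j k = m2 i k := by
  unfold m6 m2
  by_cases h3 : i = k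
  · simp [h2, h2.symm, h3]; norm_num
  · simp [h1, h2, h3]

theorem m6_12 {i j k : Fin n} (h1 : i ≠ k) (h2 : j ≠ k) : m6 i j k = m2 i j := by
  unfold m6 m2
  by_cases h3 : i = j
  · simp [h2, h3]; norm_num
  · simp [h1, h2, h3]

theorem one_idx (B : Finset (Fin n)) (g : Fin n → ℝ) (m : ℝ) :
    ∑ x ∈ B, g x * (m * g x - 1 / (B.card : ℝ) * ∑ x' ∈ B, m * g x') = m * vb B g := by
  unfold vb
  rw [← Finset.mul_sum]
  have h : ∀ x, g x * (m * g x - 1 / (B.card : ℝ) * (m * ∑ x' ∈ B, g x')) =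
      m * g x ^ 2 - g x * (1 / (B.card : ℝ) * (m * ∑ x' ∈ B, g x')) := by
    intro x
    ring
  rw [Finset.sum_congr rfl (fun x _ => h x), Finset.sum_sub_distrib, ← Finset.mul_sum,
    ← Finset.sum_mul]
  ring

theorem two_idx (B : Finset (Fin n)) (g : Fin n → Fin n → ℝ) :
    ∑ x ∈ B, ∑ y ∈ B, g x y * (m2 x y * g x y - m2 x y / ((B.card : ℝ) * (B.card + 1)) *
      ∑ x' ∈ B, ∑ y' ∈ B, m2 x' y' * g x' y') =
    ∑ x ∈ B, ∑ y ∈ B, m2 x y * g x y ^ 2 -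
      (∑ x ∈ B, ∑ y ∈ B, m2 x y * g x y) ^ 2 / ((B.card : ℝ) * (B.card + 1)) := by
  set S := ∑ x' ∈ B, ∑ y' ∈ B, m2 x' y' * g x' y' with hS
  have h : ∀ x y, g x y * (m2 x y * g x y - m2 x y / ((B.card : ℝ) * (B.card + 1)) * S) =
      m2 x y * g x y ^ 2 - m2 x y * g x y * (S / ((B.card : ℝ) * (B.card + 1))) := by
    intro x y
    ring
  rw [Finset.sum_congr rfl (fun x _ => Finset.sum_congr rfl (fun y _ => h x y))]
  simp_rw [Finset.sum_sub_distrib]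
  simp_rw [← Finset.sum_mul]
  rw [← hS]
  ring

theorem esp : ESPStmt := by
  intro n B φ hφ
  obtain ⟨hs, hc, -, -⟩ := hφ
  set F := nF φ with hF
  have hφF : ∀ i j k, φ i j k = m6 i j k * F i j k := by
    intro i j k
    have := (m6_pos i j k).ne'
    rw [hF]
    unfold nF
    field_simp
  have hFs : ∀ i j k, F i j k = F i k j := by
    intro i j k
    rw [hF]
    unfold nF
    rw [hs, m6_right]
  have hne : ∀ x ∈ B, ∀ y, y ∉ B → x ≠ y := fun x hx y hy h => hy (h ▸ hx)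
  have hsplit : ∀ g : Fin n → ℝ, ∑ i, g i = ∑ i ∈ B, g i + ∑ i ∈ Bᶜ, g i :=
    fun g => (Finset.sum_add_sum_compl B g).symm
  -- the blocks
  have b000 : ∑ i ∈ Bᶜ, ∑ j ∈ Bᶜ, ∑ k ∈ Bᶜ, F i j k * (φ i j k - p3 B φ i j k) = 0 := by
    refine Finset.sum_eq_zero (fun i hi => Finset.sum_eq_zero (fun j hj =>
      Finset.sum_eq_zero (fun k hk => ?_)))
    rw [Finset.mem_compl] at hi hj hk
    simp only [p3, mom, rb, hi, hj, hk, if_false]
    ring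
  have b100 : ∑ i ∈ B, ∑ j ∈ Bᶜ, ∑ k ∈ Bᶜ, F i j k * (φ i j k - p3 B φ i j k) =
      ∑ y ∈ Bᶜ, ∑ z ∈ Bᶜ, m2 y z * vb B (fun x => F x y z) := by
    rw [Finset.sum_comm]
    refine Finset.sum_congr rfl (fun y hy => ?_)
    rw [Finset.sum_comm]
    refine Finset.sum_congr rfl (fun z hz => ?_)
    rw [Finset.mem_compl] at hy hz
    rw [← one_idx]
    refine Finset.sum_congr rfl (fun x hx => ?_)
    have h1 : ∀ x' ∈ B, φ x' y z = m2 y z * F x' y z := by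
      intro x' hx'
      rw [hφF, m6_23 (hne x' hx' y hy) (hne x' hx' z hz)]
    simp only [p3, mom, rb, hx, hy, hz, if_true, if_false]
    rw [h1 x hx, Finset.sum_congr rfl h1]
  have b010 : ∑ i ∈ Bᶜ, ∑ j ∈ B, ∑ k ∈ Bᶜ, F i j k * (φ i j k - p3 B φ i j k) =
      ∑ y ∈ Bᶜ, ∑ z ∈ Bᶜ, m2 y z * vb B (fun x => F y x z) := by
    refine Finset.sum_congr rfl (fun y hy => ?_)
    rw [Finset.sum_comm]
    refine Finset.sum_congr rfl (fun z hz => ?_)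
    rw [Finset.mem_compl] at hy hz
    rw [← one_idx]
    refine Finset.sum_congr rfl (fun x hx => ?_)
    have h1 : ∀ x' ∈ B, φ y x' z = m2 y z * F y x' z := by
      intro x' hx'
      rw [hφF, m6_13 (hne x' hx' y hy).symm (hne x' hx' z hz)]
    simp only [p3, mom, rb, hx, hy, hz, if_true, if_false]
    rw [h1 x hx, Finset.sum_congr rfl h1]
  have b001 : ∑ i ∈ Bᶜ, ∑ j ∈ Bᶜ, ∑ k ∈ B, F i j k * (φ i j k - p3 B φ i j k) =
      ∑ y ∈ Bᶜ, ∑ z ∈ Bᶜ, m2 y z * vb B (fun x => F y x z) := by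
    refine Finset.sum_congr rfl (fun y hy => ?_)
    refine Finset.sum_congr rfl (fun z hz => ?_)
    rw [Finset.mem_compl] at hy hz
    rw [← one_idx]
    refine Finset.sum_congr rfl (fun x hx => ?_)
    have h1 : ∀ x' ∈ B, φ y z x' = m2 y z * F y x' z := by
      intro x' hx'
      rw [hφF, m6_12 (hne x' hx' y hy).symm (hne x' hx' z hz).symm, hFs y z x']
    simp only [p3, mom, rb, hx, hy, hz, if_true, if_false]
    rw [h1 x hx, Finset.sum_congr rfl h1, hFs y z x]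
  have b110 : ∑ i ∈ B, ∑ j ∈ B, ∑ k ∈ Bᶜ, F i j k * (φ i j k - p3 B φ i j k) =
      ∑ w ∈ Bᶜ, (∑ x ∈ B, ∑ y ∈ B, m2 x y * F x y w ^ 2 -
        (∑ x ∈ B, ∑ y ∈ B, m2 x y * F x y w) ^ 2 / ((B.card : ℝ) * (B.card + 1))) := by
    have e1 : ∑ i ∈ B, ∑ j ∈ B, ∑ k ∈ Bᶜ, F i j k * (φ i j k - p3 B φ i j k) =
        ∑ k ∈ Bᶜ, ∑ i ∈ B, ∑ j ∈ B, F i j k * (φ i j k - p3 B φ i j k) := by
      rw [Finset.sum_comm' (s := B) (t := fun _ => Bᶜ) (t' := Bᶜ) (s' := fun _ => B)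
        (fun x y => by tauto) |>.symm]
      refine Finset.sum_congr rfl (fun i _ => ?_)
      rw [Finset.sum_comm]
    rw [e1]
    refine Finset.sum_congr rfl (fun w hw => ?_)
    rw [Finset.mem_compl] at hw
    rw [← two_idx B (fun x y => F x y w)]
    refine Finset.sum_congr rfl (fun x hx => Finset.sum_congr rfl (fun y hy => ?_))
    have h1 : ∀ x' ∈ B, ∀ y' ∈ B, φ x' y' w = m2 x' y' * F x' y' w := by
      intro x' hx' y' hy'
      rw [hφF, m6_12 (hne x' hx' w hw) (hne y' hy' w hw)]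
    simp only [p3, mom, rb, hx, hy, hw, if_true, if_false]
    rw [h1 x hx y hy, Finset.sum_congr rfl (fun x' hx' => Finset.sum_congr rfl (h1 x' hx'))]
  have b101 : ∑ i ∈ B, ∑ j ∈ Bᶜ, ∑ k ∈ B, F i j k * (φ i j k - p3 B φ i j k) =
      ∑ w ∈ Bᶜ, (∑ x ∈ B, ∑ y ∈ B, m2 x y * F x y w ^ 2 -
        (∑ x ∈ B, ∑ y ∈ B, m2 x y * F x y w) ^ 2 / ((B.card : ℝ) * (B.card + 1))) := by
    rw [Finset.sum_comm]
    refine Finset.sum_congr rfl (fun w hw => ?_)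
    rw [Finset.mem_compl] at hw
    rw [← two_idx B (fun x y => F x y w)]
    refine Finset.sum_congr rfl (fun x hx => Finset.sum_congr rfl (fun y hy => ?_))
    have h1 : ∀ x' ∈ B, ∀ y' ∈ B, φ x' w y' = m2 x' y' * F x' y' w := by
      intro x' hx' y' hy'
      rw [hφF, m6_13 (hne x' hx' w hw) (hne y' hy' w hw).symm, hFs x' w y']
    simp only [p3, mom, rb, hx, hy, hw, if_true, if_false]
    rw [h1 x hx y hy, Finset.sum_congr rfl (fun x' hx' => Finset.sum_congr rfl (h1 x' hx')),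
      hFs x w y]
  have b011 : ∑ i ∈ Bᶜ, ∑ j ∈ B, ∑ k ∈ B, F i j k * (φ i j k - p3 B φ i j k) =
      ∑ w ∈ Bᶜ, (∑ x ∈ B, ∑ y ∈ B, m2 x y * F w x y ^ 2 -
        (∑ x ∈ B, ∑ y ∈ B, m2 x y * F w x y) ^ 2 / ((B.card : ℝ) * (B.card + 1))) := by
    refine Finset.sum_congr rfl (fun w hw => ?_)
    rw [Finset.mem_compl] at hw
    rw [← two_idx B (fun x y => F w x y)]
    refine Finset.sum_congr rfl (fun x hx => Finset.sum_congr rfl (fun y hy => ?_))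
    have h1 : ∀ x' ∈ B, ∀ y' ∈ B, φ w x' y' = m2 x' y' * F w x' y' := by
      intro x' hx' y' hy'
      rw [hφF, m6_23 (hne x' hx' w hw).symm (hne y' hy' w hw).symm]
    simp only [p3, mom, rb, hx, hy, hw, if_true, if_false]
    rw [h1 x hx y hy, Finset.sum_congr rfl (fun x' hx' => Finset.sum_congr rfl (h1 x' hx'))]
  have hzero : ∑ i ∈ B, ∑ j ∈ B, ∑ k ∈ B, φ i j k = 0 := by
    have h1 : ∑ i ∈ B, ∑ j ∈ B, ∑ k ∈ B, (φ i j k + φ j k i + φ k i j) = 0 :=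
      Finset.sum_eq_zero (fun i _ => Finset.sum_eq_zero (fun j _ =>
        Finset.sum_eq_zero (fun k _ => hc i j k)))
    simp only [Finset.sum_add_distrib] at h1
    have h2 : ∑ i ∈ B, ∑ j ∈ B, ∑ k ∈ B, φ j k i = ∑ i ∈ B, ∑ j ∈ B, ∑ k ∈ B, φ i j k := by
      rw [Finset.sum_comm]
      refine Finset.sum_congr rfl (fun j _ => ?_)
      rw [Finset.sum_comm]
    have h3 : ∑ i ∈ B, ∑ j ∈ B, ∑ k ∈ B, φ k i j = ∑ i ∈ B, ∑ j ∈ B, ∑ k ∈ B, φ i j k := by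
      have e1 : ∀ i, ∑ j ∈ B, ∑ k ∈ B, φ k i j = ∑ k ∈ B, ∑ j ∈ B, φ k i j := fun i =>
        Finset.sum_comm
      rw [Finset.sum_congr rfl (fun i _ => e1 i), Finset.sum_comm]
    rw [h2, h3] at h1
    linarith
  have b111 : ∑ i ∈ B, ∑ j ∈ B, ∑ k ∈ B, F i j k * (φ i j k - p3 B φ i j k) =
      ∑ x ∈ B, ∑ y ∈ B, ∑ z ∈ B, m6 x y z * F x y z ^ 2 := by
    refine Finset.sum_congr rfl (fun i hi => Finset.sum_congr rfl (fun j hj =>
      Finset.sum_congr rfl (fun k hk => ?_)))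
    simp only [p3, mom, rb, hi, hj, hk, if_true]
    rw [hzero, hφF i j k]
    ring
  have hen : en3 B φ = ∑ i, ∑ j, ∑ k, F i j k * (φ i j k - p3 B φ i j k) := rfl
  rw [hen]
  simp only [hsplit, Finset.sum_add_distrib]
  rw [b000, b100, b010, b001, b110, b101, b011, b111]
  have r1 : ∑ y ∈ Bᶜ, ∑ z ∈ Bᶜ, m2 y z * (vb B (fun x => F x y z) + 2 * vb B (fun x => F y x z)) =
      ∑ y ∈ Bᶜ, ∑ z ∈ Bᶜ, m2 y z * vb B (fun x => F x y z) +
      (∑ y ∈ Bᶜ, ∑ z ∈ Bᶜ, m2 y z * vb B (fun x => F y x z) +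
        ∑ y ∈ Bᶜ, ∑ z ∈ Bᶜ, m2 y z * vb B (fun x => F y x z)) := by
    simp only [← Finset.sum_add_distrib]
    refine Finset.sum_congr rfl (fun y _ => Finset.sum_congr rfl (fun z _ => ?_))
    ring
  have r2 : ∑ w ∈ Bᶜ, (∑ x ∈ B, ∑ y ∈ B, m2 x y * (F w x y ^ 2 + 2 * F x y w ^ 2) -
      ((∑ x ∈ B, ∑ y ∈ B, m2 x y * F w x y) ^ 2 +
        2 * (∑ x ∈ B, ∑ y ∈ B, m2 x y * F x y w) ^ 2) / ((B.card : ℝ) * (B.card + 1))) =
      ∑ w ∈ Bᶜ, (∑ x ∈ B, ∑ y ∈ B, m2 x y * F w x y ^ 2 -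
        (∑ x ∈ B, ∑ y ∈ B, m2 x y * F w x y) ^ 2 / ((B.card : ℝ) * (B.card + 1))) +
      (∑ w ∈ Bᶜ, (∑ x ∈ B, ∑ y ∈ B, m2 x y * F x y w ^ 2 -
        (∑ x ∈ B, ∑ y ∈ B, m2 x y * F x y w) ^ 2 / ((B.card : ℝ) * (B.card + 1))) +
      ∑ w ∈ Bᶜ, (∑ x ∈ B, ∑ y ∈ B, m2 x y * F x y w ^ 2 -
        (∑ x ∈ B, ∑ y ∈ B, m2 x y * F x y w) ^ 2 / ((B.card : ℝ) * (B.card + 1)))) := by
    simp only [← Finset.sum_add_distrib]
    refine Finset.sum_congr rfl (fun w _ => ?_)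
    have e1 : ∑ x ∈ B, ∑ y ∈ B, m2 x y * (F w x y ^ 2 + 2 * F x y w ^ 2) =
        ∑ x ∈ B, ∑ y ∈ B, m2 x y * F w x y ^ 2 + 2 * ∑ x ∈ B, ∑ y ∈ B, m2 x y * F x y w ^ 2 := by
      simp only [Finset.mul_sum, ← Finset.sum_add_distrib]
      refine Finset.sum_congr rfl (fun x _ => Finset.sum_congr rfl (fun y _ => ?_))
      ring
    rw [e1]
    ring
  rw [r1, r2]
  ring

end Pool.Agent.BSE.H1
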